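import Pool.Agent.R841.RbmH

set_option autoImplicit false

/-!
MP_dd6cbd_pr, Q1: the exact value of the maximum Kullback-Leibler divergence from the restricted
Boltzmann machine model with 3 visible units and 1 hidden unit. Definitions are in
`Pool.Agent.R841.RbmD`.
-/

open Pool.Agent.R841.Rbm

namespace Pool.Agent.Results.MP_dd6cbd_pr.MaxDivergence

/-- `D_{RBM_{3,1}} = -(3/4) log(2√3 - 3) = (3/4) log(1 + 2/√3) ≈ 0.5757` (natural logarithm).
The infimum over the model exists for every `p` (first part), the supremum over `p` is a maximum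
(second part), attained at the uniform distribution on the strings of even parity (last part). -/
theorem result :
    (∀ p ∈ stdSimplex ℝ (Fin 3 → Bool),
      IsGLB {r | ∃ q ∈ RBM 3 1, r = KL p q} (divFrom (RBM 3 1) p)) ∧
    IsGreatest {r | ∃ p ∈ stdSimplex ℝ (Fin 3 → Bool), r = divFrom (RBM 3 1) p}
      (-(3 / 4) * Real.log (2 * √3 - 3)) ∧
    maxDiv 3 1 = -(3 / 4) * Real.log (2 * √3 - 3) ∧
    divFrom (RBM 3 1) (fun x => if xor (x 0) (xor (x 1) (x 2)) then 0 else 1 / 4)
      = -(3 / 4) * Real.log (2 * √3 - 3) := by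
  refine ⟨fun p hp => div_isGLB hp, main_greatest, main_value, ?_⟩
  have h : -(3 / 4) * Real.log (2 * √3 - 3) = 3 / 4 * LL := by rw [LL_eq]; ring
  rw [h]
  exact div_par

end Pool.Agent.Results.MP_dd6cbd_pr.MaxDivergence
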